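import Mathlib

namespace Pool.Agent.Results.MP_4b1745_al.OneVariable

universe u v w z

/-- Defining relations of the free product `R *_P P⟨x_i : i ∈ I⟩` on the generators `inl r`
(`r ∈ R`) and `inr i` (the variables): the generators `inl r` satisfy all sums, products and
scalars of `R`. -/
inductive Rel (P : Type u) (R : Type v) (I : Type w) [Field P] [Ring R] [Algebra P R] :
    FreeAlgebra P (R ⊕ I) → FreeAlgebra P (R ⊕ I) → Prop
  | add (a b : R) : Rel P R I (FreeAlgebra.ι P (Sum.inl (a + b)))
      (FreeAlgebra.ι P (Sum.inl a) + FreeAlgebra.ι P (Sum.inl b))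
  | mul (a b : R) : Rel P R I (FreeAlgebra.ι P (Sum.inl (a * b)))
      (FreeAlgebra.ι P (Sum.inl a) * FreeAlgebra.ι P (Sum.inl b))
  | scalar (r : P) : Rel P R I (FreeAlgebra.ι P (Sum.inl (algebraMap P R r)))
      (algebraMap P (FreeAlgebra P (R ⊕ I)) r)

/-- The free product `R * P⟨x_i : i ∈ I⟩` of `P`-algebras. -/
abbrev FreeOver (P : Type u) (R : Type v) (I : Type w) [Field P] [Ring R] [Algebra P R] :
    Type (max u v w) :=
  RingQuot (Rel P R I)

section
variable (P : Type u) (R : Type v) (I : Type w) [Field P] [Ring R] [Algebra P R]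

/-- The quotient map from the free algebra. -/
noncomputable def mk : FreeAlgebra P (R ⊕ I) →ₐ[P] FreeOver P R I := RingQuot.mkAlgHom P (Rel P R I)

/-- The variables `x_i`. -/
noncomputable def var (i : I) : FreeOver P R I := mk P R I (FreeAlgebra.ι P (Sum.inr i))

/-- The inclusion of `R`. -/
noncomputable def const : R →ₐ[P] FreeOver P R I :=
  AlgHom.ofLinearMap
    { toFun := fun a => mk P R I (FreeAlgebra.ι P (Sum.inl a))
      map_add' := fun a b => by
        rw [← map_add]; exact RingQuot.mkAlgHom_rel P (Rel.add a b)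
      map_smul' := fun r a => by
        have h1 : mk P R I (FreeAlgebra.ι P (Sum.inl (algebraMap P R r * a))) =
            mk P R I (FreeAlgebra.ι P (Sum.inl (algebraMap P R r))) *
              mk P R I (FreeAlgebra.ι P (Sum.inl a)) := by
          rw [← map_mul]; exact RingQuot.mkAlgHom_rel P (Rel.mul _ a)
        have h2 : mk P R I (FreeAlgebra.ι P (Sum.inl (algebraMap P R r))) = algebraMap P _ r := by
          rw [← AlgHom.commutes (mk P R I)]; exact RingQuot.mkAlgHom_rel P (Rel.scalar r)
        rw [Algebra.smul_def, h1, h2, RingHom.id_apply, ← Algebra.smul_def] }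
    (by
      have h2 : mk P R I (FreeAlgebra.ι P (Sum.inl (algebraMap P R 1))) = algebraMap P _ 1 := by
        rw [← AlgHom.commutes (mk P R I)]; exact RingQuot.mkAlgHom_rel P (Rel.scalar 1)
      simpa using h2)
    (fun a b => by
      change mk P R I (FreeAlgebra.ι P (Sum.inl (a * b))) =
        mk P R I (FreeAlgebra.ι P (Sum.inl a)) * mk P R I (FreeAlgebra.ι P (Sum.inl b))
      rw [← map_mul]; exact RingQuot.mkAlgHom_rel P (Rel.mul a b))

variable {P R I}
variable {B : Type z} [Semiring B] [Algebra P B]

/-- The universal property of the free product. -/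
noncomputable def lift (φ : R →ₐ[P] B) (b : I → B) : FreeOver P R I →ₐ[P] B :=
  RingQuot.liftAlgHom P ⟨FreeAlgebra.lift P (Sum.elim φ b), fun x y h => by
    cases h with
    | add a b => simp
    | mul a b => simp
    | scalar r => simp⟩

theorem lift_const (φ : R →ₐ[P] B) (b : I → B) (a : R) : lift φ b (const P R I a) = φ a := by
  change (RingQuot.liftAlgHom P _) (RingQuot.mkAlgHom P (Rel P R I) (FreeAlgebra.ι P (Sum.inl a))) = _
  rw [RingQuot.liftAlgHom_mkAlgHom_apply]; simp

theorem lift_var (φ : R →ₐ[P] B) (b : I → B) (i : I) : lift φ b (var P R I i) = b i := by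
  change (RingQuot.liftAlgHom P _) (RingQuot.mkAlgHom P (Rel P R I) (FreeAlgebra.ι P (Sum.inr i))) = _
  rw [RingQuot.liftAlgHom_mkAlgHom_apply]; simp

/-- Uniqueness in the universal property of the free product. -/
theorem hom_ext' (ψ χ : FreeOver P R I →ₐ[P] B) (h1 : ∀ a, ψ (const P R I a) = χ (const P R I a))
    (h2 : ∀ i, ψ (var P R I i) = χ (var P R I i)) : ψ = χ := by
  apply RingQuot.ringQuot_ext'
  apply FreeAlgebra.hom_ext
  funext o
  cases o with
  | inl a => exact h1 a
  | inr i => exact h2 i

theorem induct {C : FreeOver P R I → Prop} (hc : ∀ a, C (const P R I a)) (hv : ∀ i, C (var P R I i))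
    (hadd : ∀ f g, C f → C g → C (f + g)) (hmul : ∀ f g, C f → C g → C (f * g))
    (f : FreeOver P R I) : C f := by
  obtain ⟨g, rfl⟩ := RingQuot.mkAlgHom_surjective P (Rel P R I) f
  induction g using FreeAlgebra.induction with
  | grade0 r =>
    have : RingQuot.mkAlgHom P (Rel P R I) (algebraMap P _ r) = const P R I (algebraMap P R r) := by
      rw [AlgHom.commutes, AlgHom.commutes]
    rw [this]; exact hc _
  | grade1 o =>
    cases o with
    | inl a => exact hc a
    | inr i => exact hv i
  | mul a b ha hb => rw [map_mul]; exact hmul _ _ ha hb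
  | add a b ha hb => rw [map_add]; exact hadd _ _ ha hb

/-- The homomorphism `R * P⟨x_i⟩ → R` that is the identity on `R` and sends `x_i` to `c i`. -/
noncomputable def evalAt (c : I → R) : FreeOver P R I →ₐ[P] R := lift (AlgHom.id P R) c

end

/-- Every equation `f = 0` over `R` in the unknowns `x_i` (`i ∈ I`), with `f ∈ R * P⟨x_i⟩` and
`f ∉ R`, has a solution in `R`. -/
def AlgClosedIn (P : Type u) (R : Type v) (I : Type w) [Field P] [Ring R] [Algebra P R] : Prop :=
  ∀ f : FreeOver P R I, f ∉ Set.range (const P R I) → ∃ c : I → R, evalAt c f = 0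

section main
variable {P : Type u} {R : Type v} [Field P] [Ring R] [Algebra P R]

/-- The homomorphism `R * P⟨x_0, x_1, …⟩ → R * P[t]` over `R` with `x_j ↦ t^(j+1) a t`. -/
noncomputable def theta (a : R) : FreeOver P R ℕ →ₐ[P] FreeOver P R Unit :=
  lift (const P R Unit) (fun j => var P R Unit () ^ (j + 1) * const P R Unit a * var P R Unit ())

/-- The space on which `R * P[t]` acts. -/
abbrev Sp (P : Type u) (R : Type v) [Field P] [Ring R] [Algebra P R] : Type (max u v) :=
  FreeOver P R ℕ × (ℕ → (R →ₗ[P] FreeOver P R ℕ))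

/-- The action of `R`. -/
noncomputable def actR : R →ₐ[P] Module.End P (Sp P R) :=
  AlgHom.ofLinearMap
    { toFun := fun r =>
        { toFun := fun m => (const P R ℕ r * m.1, fun n => (m.2 n) ∘ₗ LinearMap.mulRight P r)
          map_add' := fun m m' => by
            refine Prod.ext (by simp [mul_add]) ?_
            funext n; ext s; simp
          map_smul' := fun c m => by
            refine Prod.ext (by simp) ?_
            funext n; ext s; simp }
      map_add' := fun r r' => by
        refine LinearMap.ext fun m => Prod.ext (by simp [add_mul]) ?_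
        funext n; ext s; simp [mul_add]
      map_smul' := fun c r => by
        refine LinearMap.ext fun m => Prod.ext (by simp) ?_
        funext n; ext s; simp }
    (by
      refine LinearMap.ext fun m => Prod.ext (by simp) ?_
      funext n; ext s; simp)
    (fun r r' => by
      refine LinearMap.ext fun m => Prod.ext (by simp [mul_assoc]) ?_
      funext n; ext s; simp [mul_assoc])

/-- The action of `t`. -/
noncomputable def actT (α β : R →ₗ[P] P) : Module.End P (Sp P R) where
  toFun m := (m.2 0 1, fun n => β.smulRight (m.2 (n + 1) 1) + α.smulRight (var P R ℕ n * m.1))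
  map_add' m m' := by
    refine Prod.ext (by simp) ?_
    funext n; ext s; simp [mul_add]; abel
  map_smul' c m := by
    refine Prod.ext (by simp) ?_
    funext n; ext s; simp [smul_comm c]

/-- The action of `R * P[t]`. -/
noncomputable def act (α β : R →ₗ[P] P) : FreeOver P R Unit →ₐ[P] Module.End P (Sp P R) :=
  lift actR (fun _ => actT α β)

theorem act_theta (a : R) (α β : R →ₗ[P] P) (h1 : α 1 = 0) (h2 : α a = 1) (h3 : β 1 = 1)
    (h4 : β a = 0) (f : FreeOver P R ℕ) :
    ∀ m : Sp P R, (act α β (theta a f) m).1 = f * m.1 := by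
  induction f using induct with
  | hc r =>
    intro m
    rw [theta, lift_const, act, lift_const]
    rfl
  | hv j =>
    intro m
    have hT : ∀ m : Sp P R, act α β (var P R Unit ()) m = actT α β m := by
      intro m; rw [act, lift_var]
    have hpow : ∀ (k : ℕ) (m : Sp P R), (act α β (var P R Unit ()) ^ k) m = ((actT α β) ^ k) m := by
      intro k m; rw [act, lift_var]
    have hk : ∀ (k : ℕ) (m : Sp P R) (n : ℕ), ((actT α β ^ k) m).2 n 1 = m.2 (n + k) 1 := by
      intro k
      induction k with
      | zero => intro m n; simp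
      | succ k ih =>
        intro m n
        rw [pow_succ, Module.End.mul_apply, ih]
        simp [actT, h1, h3, add_assoc]
    have hk1 : ∀ (k : ℕ) (m : Sp P R), ((actT α β ^ (k + 1)) m).1 = m.2 k 1 := by
      intro k m
      rw [pow_succ', Module.End.mul_apply]
      have := hk k m 0
      rw [zero_add] at this
      exact this
    rw [theta, lift_var, map_mul, map_mul, map_pow, Module.End.mul_apply, Module.End.mul_apply,
      hpow, hk1, hT, act, lift_const]
    simp [actR, actT, h2, h4]
  | hadd f g hf hg =>
    intro m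
    rw [map_add, map_add, LinearMap.add_apply, Prod.fst_add, hf, hg, add_mul]
  | hmul f g hf hg =>
    intro m
    rw [map_mul, map_mul, Module.End.mul_apply, hf, hg, mul_assoc]

/-- If `a ∉ P`, then `theta a f` is a constant only if `f` is. -/
theorem theta_const (a : R) (ha : a ∉ Set.range (algebraMap P R)) (f : FreeOver P R ℕ)
    (h : theta a f ∈ Set.range (const P R Unit)) : f ∈ Set.range (const P R ℕ) := by
  have hli : LinearIndependent P ![(1 : R), a] := by
    have h1 : (1 : R) ≠ 0 := by
      intro h0
      apply ha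
      refine ⟨0, ?_⟩
      rw [map_zero, ← one_mul a, h0, zero_mul]
    rw [LinearIndependent.pair_iff' h1]
    intro c hc
    exact ha ⟨c, by rw [Algebra.algebraMap_eq_smul_one]; exact hc⟩
  set b := Module.Basis.span hli with hb
  have hb0 : ((b 0 : Submodule.span P (Set.range ![(1 : R), a])) : R) = 1 := by
    rw [hb, Module.Basis.span_apply]; rfl
  have hb1 : ((b 1 : Submodule.span P (Set.range ![(1 : R), a])) : R) = a := by
    rw [hb, Module.Basis.span_apply]; rfl
  have key : ∀ i : Fin 2, ∃ g : R →ₗ[P] P, g 1 = b.coord i (b 0) ∧ g a = b.coord i (b 1) := by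
    intro i
    obtain ⟨g, hg⟩ := LinearMap.exists_extend (b.coord i)
    refine ⟨g, ?_, ?_⟩
    · have h1 : g ((b 0 : Submodule.span P (Set.range ![(1 : R), a])) : R) = b.coord i (b 0) := by
        rw [← hg]; rfl
      rw [← h1, hb0]
    · have h1 : g ((b 1 : Submodule.span P (Set.range ![(1 : R), a])) : R) = b.coord i (b 1) := by
        rw [← hg]; rfl
      rw [← h1, hb1]
  obtain ⟨α, hα⟩ : ∃ α : R →ₗ[P] P, α 1 = 0 ∧ α a = 1 := by
    obtain ⟨g, h1, h2⟩ := key 1
    refine ⟨g, h1.trans ?_, h2.trans ?_⟩ <;> simp [Module.Basis.coord_apply, Module.Basis.repr_self]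
  obtain ⟨β, hβ⟩ : ∃ β : R →ₗ[P] P, β 1 = 1 ∧ β a = 0 := by
    obtain ⟨g, h1, h2⟩ := key 0
    refine ⟨g, h1.trans ?_, h2.trans ?_⟩ <;> simp [Module.Basis.coord_apply, Module.Basis.repr_self]
  obtain ⟨r, hr⟩ := h
  refine ⟨r, ?_⟩
  have h2 := act_theta a α β hα.1 hα.2 hβ.1 hβ.2 f (1, fun _ => 0)
  rw [← hr, act, lift_const] at h2
  simpa [actR] using h2

/-- The embedding `R * P[t] → R * P⟨x_0, x_1, …⟩`, `t ↦ x_0`. -/
noncomputable def emb : FreeOver P R Unit →ₐ[P] FreeOver P R ℕ :=
  lift (const P R ℕ) (fun _ => var P R ℕ 0)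

/-- Its retraction, `x_j ↦ t`. -/
noncomputable def retr : FreeOver P R ℕ →ₐ[P] FreeOver P R Unit :=
  lift (const P R Unit) (fun _ => var P R Unit ())

theorem retr_emb (f : FreeOver P R Unit) : retr (emb f) = f := by
  have h : (retr.comp emb : FreeOver P R Unit →ₐ[P] FreeOver P R Unit) = AlgHom.id P _ := by
    apply hom_ext'
    · intro a; simp [retr, emb, lift_const]
    · intro i; simp [retr, emb, lift_var]
  exact DFunLike.congr_fun h f

/-- `x_0 x_1 - x_1 x_0 - 1` is not a constant when `R = P`. -/
theorem comm_not_const [Nontrivial R] (hs : Function.Surjective (algebraMap P R)) :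
    var P R ℕ 0 * var P R ℕ 1 - var P R ℕ 1 * var P R ℕ 0 - 1 ∉ Set.range (const P R ℕ) := by
  rintro ⟨r, hr⟩
  have hr1 : r = -1 := by
    have h := congrArg (lift (AlgHom.id P R) (fun _ : ℕ => (0 : R))) hr
    simpa [lift_const, lift_var] using h
  have hcomm : var P R ℕ 0 * var P R ℕ 1 = var P R ℕ 1 * var P R ℕ 0 := by
    rw [hr1, map_neg, map_one] at hr
    have : var P R ℕ 0 * var P R ℕ 1 - var P R ℕ 1 * var P R ℕ 0 = 0 := by
      have h4 := congrArg (fun z => z + 1) hr
      simp only [neg_add_cancel, sub_add_cancel] at h4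
      exact h4.symm
    exact sub_eq_zero.mp this
  have hbij : Function.Bijective (Algebra.ofId P R) := ⟨(algebraMap P R).injective, hs⟩
  let e := AlgEquiv.ofBijective (Algebra.ofId P R) hbij
  let φ : R →ₐ[P] Matrix (Fin 2) (Fin 2) P := (Algebra.ofId P _).comp e.symm.toAlgHom
  let b : ℕ → Matrix (Fin 2) (Fin 2) P := fun n => if n = 0 then !![0, 1; 0, 0] else !![0, 0; 1, 0]
  have h := congrArg (lift φ b) hcomm
  rw [map_mul, map_mul, lift_var, lift_var] at h
  have h2 := congrFun (congrFun h 0) 0
  simp [b, Matrix.mul_apply] at h2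

/-- **Equations in many unknowns versus equations in one unknown.**  A nonzero algebra `R` over a
field `P` is algebraically closed with respect to equations in countably many unknowns if and
only if `R ≠ P` and it is algebraically closed with respect to equations in one unknown. -/
theorem result (P : Type u) (R : Type v) [Field P] [Ring R] [Algebra P R] [Nontrivial R] :
    AlgClosedIn P R ℕ ↔ ¬ Function.Surjective (algebraMap P R) ∧ AlgClosedIn P R Unit := by
  constructor
  · intro h
    refine ⟨fun hs => ?_, fun f hf => ?_⟩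
    · obtain ⟨c, hc⟩ := h _ (comm_not_const hs)
      rw [evalAt, map_sub, map_sub, map_mul, map_mul, lift_var, lift_var, map_one] at hc
      obtain ⟨r, hr⟩ := hs (c 0)
      rw [← hr, Algebra.commutes, sub_self, zero_sub] at hc
      exact one_ne_zero (neg_eq_zero.mp hc)
    · have hf' : emb f ∉ Set.range (const P R ℕ) := by
        rintro ⟨r, hr⟩
        apply hf
        refine ⟨r, ?_⟩
        have h2 := congrArg retr hr
        rw [retr_emb] at h2
        rw [← h2, retr, lift_const]
      obtain ⟨c, hc⟩ := h _ hf'
      refine ⟨fun _ => c 0, ?_⟩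
      have h3 : ((evalAt c).comp emb : FreeOver P R Unit →ₐ[P] R) = evalAt (fun _ => c 0) := by
        apply hom_ext'
        · intro a; simp [evalAt, emb, lift_const]
        · intro i; simp [evalAt, emb, lift_var]
      rw [← h3]; exact hc
  · rintro ⟨hs, h⟩ f hf
    obtain ⟨a, ha⟩ : ∃ a : R, a ∉ Set.range (algebraMap P R) := by
      by_contra hcon
      push Not at hcon
      exact hs fun r => hcon r
    obtain ⟨c, hc⟩ := h (theta a f) (fun h2 => hf (theta_const a ha f h2))
    refine ⟨fun j => c () ^ (j + 1) * a * c (), ?_⟩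
    have h3 : ((evalAt c).comp (theta a) : FreeOver P R ℕ →ₐ[P] R) =
        evalAt (fun j => c () ^ (j + 1) * a * c ()) := by
      apply hom_ext'
      · intro a; simp [evalAt, theta, lift_const]
      · intro i; simp [evalAt, theta, lift_var, lift_const]
    rw [← h3]; exact hc

end main

end Pool.Agent.Results.MP_4b1745_al.OneVariable
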