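import Pool.Agent.Results.MP_4b1745_al.OneVariable
import Pool.Agent.Helper601.ACA.Final

namespace Pool.Agent.Results.MP_4b1745_al.Existence

open Pool.Agent.Results.MP_4b1745_al.OneVariable (AlgClosedIn)

/-- **Algebraically closed associative algebras exist.**  There are a field `P` of characteristic
zero and a nonzero associative `P`-algebra `R` (in fact a division ring with centre `P`) such that
every equation `f = 0` with `f ∈ R * P⟨x_0, x_1, …⟩`, `f ∉ R`, has a solution in `R`; the same
holds for equations in a single unknown. -/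
theorem result :
    ∃ (P : Type) (_ : Field P) (R : Type) (_ : Ring R) (_ : Algebra P R),
      CharZero P ∧ Nontrivial R ∧
      (∀ a : R, a ≠ 0 → ∃ b : R, a * b = 1 ∧ b * a = 1) ∧
      (∀ c : R, (∀ d : R, c * d = d * c) ↔ c ∈ Set.range (algebraMap P R)) ∧
      AlgClosedIn P R ℕ ∧ AlgClosedIn P R Unit := by
  obtain ⟨D, i1, i2, i3, hnc, hroot⟩ := ACA.exists_closed
  obtain ⟨hdiv, P, j1, j2, hc, hcl⟩ := ACA.abs_closed hnc hroot
  refine ⟨P, j1, D, i1, j2, ?_, i3, hdiv, hc, hcl, (OneVariable.result P D |>.mp hcl).2⟩
  have hD : CharZero D := algebraRat.charZero D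
  refine ⟨fun a b hab => ?_⟩
  have h := congrArg (algebraMap P D) hab
  rw [map_natCast, map_natCast] at h
  exact Nat.cast_injective h

end Pool.Agent.Results.MP_4b1745_al.Existence
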